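import Pool.Agent.H31.UF.Targets

/-!
# Row WIN of the board uf_modules (MP_c59857_nt): the window lemma
-/

set_option autoImplicit false

namespace Pool.Agent.H78.UF

open Finset Filter Topology
open Pool.Agent.H91.LF Pool.Agent.H31.UF

theorem pf_WIN : T_WIN := by
  intro d r S _ A a W n c e κ hn he hκ ω ω' h
  have h0 : ∀ i, (ω i : ZMod W) = (ω' i : ZMod W) := by
    intro i
    have h1 := congrFun (congrArg Prod.fst (h 0 hn)) i
    simpa [xs] using h1
  have hcl : ∀ i, ((ω + κ) i ≡ c i [ZMOD W]) ↔ ((ω' + κ) i ≡ c i [ZMOD W]) := by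
    intro i
    rw [← ZMod.intCast_eq_intCast_iff, ← ZMod.intCast_eq_intCast_iff, Pi.add_apply, Pi.add_apply,
      Int.cast_add, Int.cast_add, h0 i]
  have hterm : ∀ i s, lz (lf (A i s) (ω + κ) + a i) = lz (lf (A i s) (ω' + κ) + a i) := by
    intro i s
    obtain ⟨j, hj⟩ := Int.eq_ofNat_of_zero_le (hκ i s).1
    have hjn : j < n := by
      have := (hκ i s).2
      rw [hj] at this
      exact_mod_cast this
    have h1 := congrFun (congrFun (congrArg Prod.snd (h j hjn)) i) s
    have h2 : ∀ ω : Fin d → ℤ, lf (A i s) (ω + (j : ℤ) • e) = lf (A i s) (ω + κ) + a i := by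
      intro ω
      rw [lf_add, lf_smul, he i s, lf_add, mul_one]
      have hj' : lf (A i s) κ + a i = (j : ℤ) := hj
      linarith
    simp only [xs, h2] at h1
    rw [← sign_lz (lf (A i s) (ω + κ) + a i), ← sign_lz (lf (A i s) (ω' + κ) + a i), h1]
  unfold Fp
  by_cases hc : ∀ i, (ω + κ) i ≡ c i [ZMOD W]
  · rw [if_pos hc, if_pos fun i => (hcl i).1 (hc i)]
    exact Finset.prod_congr rfl fun i _ => Finset.prod_congr rfl fun s _ => hterm i s
  · rw [if_neg hc, if_neg fun h => hc fun i => (hcl i).2 (h i)]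

end Pool.Agent.H78.UF
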